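import Mathlib
import Pool.Agent.X189.SI.Ell

set_option autoImplicit false

/-!
An ideal of a stable normed algebra need not be stable.  The ideal is the algebra of absolutely
summable sequences with the pointwise product, sitting in its unitization with the norm
`|lambda| + sum |x_n|`.
-/

namespace Pool.Agent.Results.MP_3ea013_an.IdealNotStable

open Pool.Agent.X189.SI

/-- Left stability of a normed algebra: a bound `‖a b‖ ≤ M ‖b‖` for all `b` forces `‖a‖ ≤ M`. -/
def LeftStable (A : Type) [NonUnitalNormedRing A] : Prop :=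
  ∀ a : A, ∀ M : ℝ, 0 < M → (∀ b : A, ‖a * b‖ ≤ M * ‖b‖) → ‖a‖ ≤ M

/-- Right stability of a normed algebra: a bound `‖b a‖ ≤ M ‖b‖` for all `b` forces `‖a‖ ≤ M`. -/
def RightStable (A : Type) [NonUnitalNormedRing A] : Prop :=
  ∀ a : A, ∀ M : ℝ, 0 < M → (∀ b : A, ‖b * a‖ ≤ M * ‖b‖) → ‖a‖ ≤ M

/-- Left stability of a subspace `I` closed under multiplication, with the restricted norm. -/
def LeftStableOn (A : Type) [NormedRing A] [NormedAlgebra ℂ A] (I : Submodule ℂ A) : Prop :=
  ∀ a ∈ I, ∀ M : ℝ, 0 < M → (∀ b ∈ I, ‖a * b‖ ≤ M * ‖b‖) → ‖a‖ ≤ M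

/-- Right stability of a subspace `I` closed under multiplication, with the restricted norm. -/
def RightStableOn (A : Type) [NormedRing A] [NormedAlgebra ℂ A] (I : Submodule ℂ A) : Prop :=
  ∀ a ∈ I, ∀ M : ℝ, 0 < M → (∀ b ∈ I, ‖b * a‖ ≤ M * ‖b‖) → ‖a‖ ≤ M

noncomputable section

/-- the unitization of `E1` with the `ℓ¹` norm -/
abbrev UA : Type := WithLp 1 (Unitization ℂ E1)

lemma ua_mul_comm (x y : UA) : x * y = y * x := by
  apply (WithLp.equiv 1 (Unitization ℂ E1)).injective
  show WithLp.ofLp (x * y) = WithLp.ofLp (y * x)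
  rw [WithLp.unitization_mul, WithLp.unitization_mul, mul_comm]

instance instNCR : NormedCommRing UA :=
  { WithLp.instUnitizationNormedRing with
    mul_comm := ua_mul_comm }

/-- the embedding of `E1` -/
def inc (x : E1) : UA := WithLp.toLp 1 (x : Unitization ℂ E1)

lemma norm_inc (x : E1) : ‖inc x‖ = ‖x‖ := WithLp.unitization_norm_inr x

lemma inc_mul (x y : E1) : inc (x * y) = inc x * inc y := by
  show WithLp.toLp 1 ((x * y : E1) : Unitization ℂ E1) = _
  rw [Unitization.inr_mul]
  rfl

/-- the ideal `E1` of the unitization -/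
def II : Submodule ℂ UA where
  carrier := {x | (WithLp.ofLp x).fst = 0}
  add_mem' := by
    intro a b ha hb
    show (WithLp.ofLp a + WithLp.ofLp b).fst = 0
    rw [Unitization.fst_add, ha, hb, add_zero]
  zero_mem' := rfl
  smul_mem' := by
    intro c a ha
    show (c • WithLp.ofLp a).fst = 0
    rw [Unitization.fst_smul, ha, smul_zero]

lemma mem_II (x : UA) : x ∈ II ↔ (WithLp.ofLp x).fst = 0 := Iff.rfl

lemma inc_mem (x : E1) : inc x ∈ II := rfl

lemma eq_inc {x : UA} (hx : x ∈ II) : ∃ y : E1, x = inc y := by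
  refine ⟨(WithLp.ofLp x).snd, ?_⟩
  apply (WithLp.equiv 1 (Unitization ℂ E1)).injective
  show WithLp.ofLp x = ((WithLp.ofLp x).snd : Unitization ℂ E1)
  apply Unitization.ext
  · exact hx
  · rfl

/-- the first unit vectors -/
def tr (N : ℕ) : E1 :=
  mk1 (fun i => if i < N then 1 else 0) (by
    refine summable_of_ne_finset_zero (s := Finset.range N) fun i hi => ?_
    rw [Finset.mem_range] at hi
    simp [hi])

lemma tr_apply (N i : ℕ) : tr N i = if i < N then 1 else 0 := rfl

lemma norm_tr (N : ℕ) : ‖tr N‖ = N := by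
  rw [E1.norm_eq, tsum_eq_sum (s := Finset.range N)]
  · rw [Finset.sum_congr rfl (g := fun _ => (1 : ℝ))]
    · simp
    · intro i hi
      rw [Finset.mem_range] at hi
      simp [tr_apply, hi]
  · intro i hi
    rw [Finset.mem_range] at hi
    simp [tr_apply, hi]

lemma norm_tr_mul (N : ℕ) (b : E1) : ‖tr N * b‖ ≤ ‖b‖ := by
  rw [E1.norm_eq, E1.norm_eq b]
  refine (summable_mul (tr N) b).tsum_le_tsum (fun i => ?_) b.summable
  rw [mul_apply, norm_mul, tr_apply]
  split_ifs
  · simp
  · simp

/-- the characters: evaluation -/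
def ev (n : ℕ) : UA →ₐ[ℂ] ℂ :=
  { toFun := fun x => (WithLp.ofLp x).fst + (WithLp.ofLp x).snd n
    map_one' := by
      show (1 : ℂ) + (0 : E1) n = 1
      simp
    map_mul' := by
      intro x y
      show (WithLp.ofLp x * WithLp.ofLp y).fst + (WithLp.ofLp x * WithLp.ofLp y).snd n = _
      rw [Unitization.fst_mul, Unitization.snd_mul]
      simp only [add_apply1, smul_apply1, mul_apply]
      ring
    map_zero' := by
      show (0 : ℂ) + (0 : E1) n = 0
      simp
    map_add' := by
      intro x y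
      show (WithLp.ofLp x + WithLp.ofLp y).fst + (WithLp.ofLp x + WithLp.ofLp y).snd n = _
      rw [Unitization.fst_add, Unitization.snd_add]
      simp only [add_apply1]
      ring
    commutes' := by
      intro r
      show r + (0 : E1) n = r
      simp }

/-- the characters: the one with kernel `E1` -/
def ev0 : UA →ₐ[ℂ] ℂ :=
  { toFun := fun x => (WithLp.ofLp x).fst
    map_one' := rfl
    map_mul' := fun x y => rfl
    map_zero' := rfl
    map_add' := fun x y => rfl
    commutes' := fun r => rfl }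

lemma sep (x : UA) (h : ∀ χ : UA →ₐ[ℂ] ℂ, χ x = 0) : x = 0 := by
  have h0 : (WithLp.ofLp x).fst = 0 := h ev0
  apply (WithLp.equiv 1 (Unitization ℂ E1)).injective
  show WithLp.ofLp x = (0 : Unitization ℂ E1)
  apply Unitization.ext
  · exact h0
  · apply ext1
    intro n
    have h1 : (WithLp.ofLp x).fst + (WithLp.ofLp x).snd n = 0 := h (ev n)
    rw [h0, zero_add] at h1
    exact h1

lemma norm_one_ua : ‖(1 : UA)‖ = 1 := by
  rw [WithLp.unitization_norm_def]
  show ‖(1 : ℂ)‖ + ‖(0 : E1)‖ = 1
  simp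

/-- **Stability does not pass to closed ideals.**  There is a unital commutative complex Banach
algebra `A` with `‖1‖ = 1` whose characters separate its points (so `A` is semisimple) and which is
left and right stable, and there is a closed two-sided ideal `I` of `A`, with no nonzero element
annihilating `I`, which with the restricted norm is neither left stable nor right stable; in fact
for every constant `C` some `a ∈ I` satisfies `‖a b‖ ≤ ‖b‖` and `‖b a‖ ≤ ‖b‖` for all `b ∈ I` but
`‖a‖ > C`. -/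
theorem result : ∃ (A : Type) (_ : NormedCommRing A) (_ : NormedAlgebra ℂ A),
    CompleteSpace A ∧ ‖(1 : A)‖ = 1 ∧
    (∀ x : A, (∀ χ : A →ₐ[ℂ] ℂ, χ x = 0) → x = 0) ∧
    LeftStable A ∧ RightStable A ∧
    ∃ I : Submodule ℂ A, IsClosed (I : Set A) ∧
      (∀ a : A, ∀ b ∈ I, a * b ∈ I ∧ b * a ∈ I) ∧
      (∀ a : A, (∀ b ∈ I, a * b = 0) → a = 0) ∧
      ¬ LeftStableOn A I ∧ ¬ RightStableOn A I ∧
      ∀ C : ℝ, ∃ a ∈ I, (∀ b ∈ I, ‖a * b‖ ≤ ‖b‖ ∧ ‖b * a‖ ≤ ‖b‖) ∧ C < ‖a‖ := by
  have key : ∀ C : ℝ, ∃ a ∈ II, (∀ b ∈ II, ‖a * b‖ ≤ ‖b‖ ∧ ‖b * a‖ ≤ ‖b‖) ∧ C < ‖a‖ := by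
    intro C
    obtain ⟨N, hN⟩ := exists_nat_gt C
    refine ⟨inc (tr N), inc_mem _, fun b hb => ?_, ?_⟩
    · obtain ⟨y, rfl⟩ := eq_inc hb
      have h1 : ‖inc (tr N) * inc y‖ ≤ ‖inc y‖ := by
        rw [← inc_mul, norm_inc, norm_inc]
        exact norm_tr_mul N y
      exact ⟨h1, by rw [ua_mul_comm]; exact h1⟩
    · rw [norm_inc, norm_tr]
      exact hN
  refine ⟨UA, instNCR, WithLp.instUnitizationNormedAlgebra, inferInstance, norm_one_ua, sep,
    ?_, ?_, II, ?_, ?_, ?_, ?_, ?_, key⟩
  · intro a M _ h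
    have h1 := h 1
    rw [norm_one_ua, mul_one, mul_one] at h1
    exact h1
  · intro a M _ h
    have h1 := h 1
    rw [norm_one_ua, one_mul, mul_one] at h1
    exact h1
  · have hc : Continuous fun x : UA => (WithLp.ofLp x).fst := by
      let L : UA →ₗ[ℂ] ℂ :=
        { toFun := fun x => (WithLp.ofLp x).fst
          map_add' := fun x y => rfl
          map_smul' := fun c x => rfl }
      refine (L.mkContinuous 1 fun x => ?_).continuous
      rw [one_mul, WithLp.unitization_norm_def]
      have := norm_nonneg (WithLp.ofLp x).snd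
      show ‖(WithLp.ofLp x).fst‖ ≤ _
      linarith
    exact isClosed_singleton.preimage hc
  · intro a b hb
    have h1 : a * b ∈ II := by
      rw [mem_II, WithLp.unitization_mul, Unitization.fst_mul, (mem_II b).1 hb, mul_zero]
    exact ⟨h1, by rw [ua_mul_comm]; exact h1⟩
  · intro a h
    have hn : ∀ n : ℕ, (WithLp.ofLp a).fst + (WithLp.ofLp a).snd n = 0 := by
      intro n
      have h1 := congrArg (ev n) (h (inc (tr (n + 1))) (inc_mem _))
      rw [map_mul, map_zero] at h1
      have h2 : ev n (inc (tr (n + 1))) = 1 := by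
        show (0 : ℂ) + tr (n + 1) n = 1
        rw [tr_apply]
        simp
      rw [h2, mul_one] at h1
      exact h1
    have h0 : (WithLp.ofLp a).fst = 0 := by
      have hs := (WithLp.ofLp a).snd.summable.tendsto_atTop_zero
      have hc : ∀ n : ℕ, ‖(WithLp.ofLp a).snd n‖ = ‖(WithLp.ofLp a).fst‖ := by
        intro n
        rw [← norm_neg, eq_neg_of_add_eq_zero_left (hn n)]
      have h3 : Filter.Tendsto (fun _ : ℕ => ‖(WithLp.ofLp a).fst‖) Filter.atTop (nhds 0) := by
        refine hs.congr hc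
      have h4 := tendsto_nhds_unique h3 tendsto_const_nhds
      exact norm_eq_zero.1 h4.symm
    apply (WithLp.equiv 1 (Unitization ℂ E1)).injective
    show WithLp.ofLp a = (0 : Unitization ℂ E1)
    apply Unitization.ext
    · exact h0
    · apply ext1
      intro n
      have h1 := hn n
      rw [h0, zero_add] at h1
      exact h1
  · intro h
    obtain ⟨a, ha, hb, hC⟩ := key 1
    have := h a ha 1 one_pos fun b hb' => by rw [one_mul]; exact (hb b hb').1
    linarith
  · intro h
    obtain ⟨a, ha, hb, hC⟩ := key 1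
    have := h a ha 1 one_pos fun b hb' => by rw [one_mul]; exact (hb b hb').2
    linarith

end

end Pool.Agent.Results.MP_3ea013_an.IdealNotStable
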